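import Pool.Agent.Helper32_ND.Stmts

/-! TBIJ, TFR -/

set_option autoImplicit false

namespace Pool.Agent.ND.H76

open Finset

variable {ι : Type} [Fintype ι] [DecidableEq ι] {n : ℕ} {A : Arr ι n} {K : Type} [Field K]

theorem lat_top (r : ℕ) (x : OS A K r) : x ∈ Lat A (⊤ : Subring K) r := by
  have hx : x ∈ Submodule.span K (Set.range (e A K : (Fin r → ι) → OS A K r)) := by
    rw [span_e]; exact Submodule.mem_top
  unfold Lat
  induction hx using Submodule.span_induction with
  | mem x h => exact Submodule.subset_span h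
  | zero => exact Submodule.zero_mem _
  | add x y _ _ h1 h2 => exact Submodule.add_mem _ h1 h2
  | smul c x _ h =>
    have h2 := Submodule.smul_mem _ (⟨c, Subring.mem_top c⟩ : (⊤ : Subring K)) h
    exact h2

instance finite_OS (r : ℕ) : Module.Finite K (OS A K r) := by
  refine ⟨⟨(Set.finite_range (e A K : (Fin r → ι) → OS A K r)).toFinset, ?_⟩⟩
  rw [Set.Finite.coe_toFinset]
  exact span_e r

theorem bij_of_unit (hT : TsurStmt) {M : ℕ} {A : Arr ι (M + 2)} (P : Pts A) [Algebra ℂ K]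
    (ρ : ι → K) (j : ι) (h : ∀ X : Finset ι, j ∈ X → ∑ i ∈ X, ρ i ≠ 0) :
    Function.Bijective (T P ρ j) := by
  have hs : Function.Surjective (T P ρ j) := by
    intro x
    obtain ⟨y, -, hy⟩ := (hT ι M A P K ⊤ (fun _ => Subring.mem_top _) ρ j).2
      ⟨fun _ => Subring.mem_top _, fun X hX => ⟨h X hX, Subring.mem_top _⟩⟩ x (lat_top _ x)
    exact ⟨y, hy⟩
  exact ⟨LinearMap.injective_iff_surjective.mpr hs, hs⟩

theorem tbij (hT : TsurStmt) : TbijStmt := by
  intro ι _ _ M A P K _ _ ρ j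
  refine ⟨fun h => bij_of_unit hT P ρ j fun X hX => h X ⟨j, hX⟩, fun O hO hU x hx => ?_⟩
  obtain ⟨y, hy, h⟩ := (hT ι M A P K O hO ρ j).2 hU _ hx
  have := (bij_of_unit hT P ρ j fun X hX => (hU.2 X hX).1).1 h
  rw [← this]
  exact hy

theorem Mj_wd {M : ℕ} {A : Arr ι (M + 2)} (P : Pts A) [Algebra ℂ K] (i : ι) (c : OS A K M) :
    Mj P i (wd A K M i c) = 0 := by
  have h : (Mj P i).comp (wd A K M i) = 0 := by
    apply hom_ext
    intro F
    rw [LinearMap.comp_apply, wd_e, LinearMap.zero_apply]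
    by_cases hF : A.Ind (Fin.cons i F : Fin (M + 1) → ι)
    · unfold Mj
      rw [dg_e]
      have h1 : i ∈ A.cl (Fin.cons i F : Fin (M + 1) → ι) := by
        have := self_mem_cl (A := A) (Fin.cons i F : Fin (M + 1) → ι) 0
        rwa [Fin.cons_zero] at this
      rw [(P.vmem _ hF i).mpr h1, map_zero, zero_smul]
    · rw [e_dep hF, map_zero]
  have h2 := LinearMap.congr_fun h c
  rwa [LinearMap.comp_apply, LinearMap.zero_apply] at h2

theorem tfr : TfrStmt := by
  intro ι _ _ M A P K _ _ ρ i G _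
  rw [T_apply, ← wd_e, bd_wd, map_sub, Mj_wd, sub_zero]
  unfold Mj
  rw [dg_e, map_smul]

end Pool.Agent.ND.H76
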